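import Mathlib
import Pool.Agent.H525.QF.Stm
import Pool.Agent.H985.Chow.KeyL
import Pool.Agent.H985.Chow.Sgn

/-!
# Project QF (helper525): the parity of the number of prime factors of `x ^ 4 + t y ^ 4`
-/

namespace Pool.Agent.H591.QF

open Polynomial
open Pool.Agent.H985.Chow
open Pool.Agent.H525.QF (lt mon mem_lt mem_mon F S_par)
open Pool.Agent.H524 (red emb frobLift AC vdm two_dvd_iff isUnit_iff_red two_ne_zero_witt
  red_frobLift frobLift_emb red_emb)

section root

variable {K : Type} [Field K] [CharP K 2]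

lemma two_K : (2 : K) = 0 := by
  have := CharP.cast_eq_zero K 2
  exact_mod_cast this

lemma cast_even {n : ℕ} (h : Even n) : (n : K) = 0 := by
  obtain ⟨k, rfl⟩ := h
  push_cast
  linear_combination (k : K) * two_K (K := K)

lemma cast_odd {n : ℕ} (h : Odd n) : (n : K) = 1 := by
  obtain ⟨k, rfl⟩ := h
  push_cast
  linear_combination (k : K) * two_K (K := K)

lemma three_dvd (κ : ℕ) : 3 ∣ 2 ^ κ - 1 ↔ Even κ := by
  rcases Nat.even_or_odd' κ with ⟨k, hk | hk⟩
  · subst hk
    have h1 : 2 ^ (2 * k) % 3 = 1 := by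
      rw [pow_mul, Nat.pow_mod]
      norm_num
    have h2 : 1 ≤ 2 ^ (2 * k) := Nat.one_le_two_pow
    constructor
    · intro _
      exact even_two_mul k
    · intro _
      omega
  · subst hk
    have h1 : 2 ^ (2 * k + 1) % 3 = 2 := by
      rw [pow_succ, pow_mul, Nat.mul_mod, Nat.pow_mod]
      norm_num
    have h2 : 1 ≤ 2 ^ (2 * k + 1) := Nat.one_le_two_pow
    constructor
    · intro _
      omega
    · intro h
      exfalso
      rw [Nat.even_iff] at h
      omega

/-- Primitive cube roots of unity in a finite field of characteristic two. -/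
lemma exists_cube [Fintype K] (κ : ℕ) (hκ : Fintype.card K = 2 ^ κ) :
    (∃ x : K, x ^ 2 + x = 1) ↔ Even κ := by
  classical
  have h2 := two_K (K := K)
  have hF : Fact (Nat.Prime 3) := ⟨Nat.prime_three⟩
  rw [← three_dvd]
  constructor
  · rintro ⟨x, hx⟩
    have h3 : x ^ 3 = 1 := by
      linear_combination (x - 1) * hx + (x - 1) * h2
    have h1 : x ≠ 1 := by
      rintro rfl
      have : (1 : K) = 0 := by linear_combination hx
      exact one_ne_zero this
    have h0 : x ≠ 0 := by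
      rintro rfl
      have : (1 : K) = 0 := by linear_combination -hx
      exact one_ne_zero this
    have h4 : orderOf x = 3 := orderOf_eq_prime h3 h1
    have h5 := FiniteField.pow_card_sub_one_eq_one x h0
    rw [← h4, ← hκ]
    exact orderOf_dvd_of_pow_eq_one h5
  · intro h
    have h4 : 3 ∣ Fintype.card Kˣ := by
      rw [Fintype.card_units, hκ]
      exact h
    obtain ⟨u, hu⟩ := exists_prime_orderOf_dvd_card 3 h4
    have h5 : u ^ 3 = 1 := by
      rw [← hu]
      exact pow_orderOf_eq_one u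
    have h6 : (u : K) ^ 3 = 1 := by
      rw [← Units.val_pow_eq_pow_val, h5, Units.val_one]
    have h7 : (u : K) - 1 ≠ 0 := by
      intro h0
      have : u = 1 := Units.ext (by rw [Units.val_one]; linear_combination h0)
      rw [this, orderOf_one] at hu
      omega
    refine ⟨(u : K), ?_⟩
    have h8 : ((u : K) - 1) * ((u : K) ^ 2 + u + 1) = 0 := by
      linear_combination h6
    rcases mul_eq_zero.mp h8 with h9 | h9
    · exact absurd h9 h7
    · linear_combination h9 - h2

lemma exists_iff [Fintype K] (κ n : ℕ) (hκ : Fintype.card K = 2 ^ κ) :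
    (∃ x : K, x ^ 2 + x = (n : K)) ↔ Even (κ * n) := by
  rcases Nat.even_or_odd n with h | h
  · rw [cast_even h]
    exact ⟨fun _ => h.mul_left κ, fun _ => ⟨0, by ring⟩⟩
  · rw [cast_odd h, exists_cube κ hκ, Nat.even_mul]
    rw [← Nat.not_even_iff_odd] at h
    tauto

end root

section core

variable {K : Type} [Field K] [Fintype K] [CharP K 2]

omit [Fintype K] [CharP K 2] in
lemma F_eq (a b : K[X]) : a ^ 4 + X * b ^ 4 = (a ^ 2) ^ 2 + X * (b ^ 2) ^ 2 := by ring

/-- The sign, from the data of the lifts. -/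
lemma core (N n : ℕ) (hN : 1 ≤ N) (a b : K[X]) (hab : IsCoprime a b)
    (A B : (WittVector 2 K)[X]) (hA : A.map (red K) = a) (hB : B.map (red K) = b)
    (hG : ((A ^ 2) ^ 2 + X * (B ^ 2) ^ 2).Monic)
    (hd : ((A ^ 2) ^ 2 + X * (B ^ 2) ^ 2).natDegree = N)
    (hs : Even (N * (N - 1) / 2))
    (hH : (A ^ 3 * derivative A + X * B ^ 3 * derivative B).natDegree ≤ N - 1)
    (hc : (A ^ 3 * derivative A + X * B ^ 3 * derivative B).coeff (N - 1) =
      (n : WittVector 2 K)) :
    ((-1) ^ N * mob (a ^ 4 + X * b ^ 4) = 1 ∧ ∃ x : K, x ^ 2 + x = (n : K)) ∨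
      ((-1) ^ N * mob (a ^ 4 + X * b ^ 4) = -1 ∧ ¬ ∃ x : K, x ^ 2 + x = (n : K)) := by
  classical
  have h2AC : (2 : AC K) = 0 := two_AC
  obtain ⟨V, Y, N', ℓ1, ℓ2, w, hV, hV0, hYf, hY0, hVY, hN1, hN', hℓ1, hℓ2, hco⟩ :=
    side sgn N hN (A ^ 2) (B ^ 2) hG hd (by
      rw [Polynomial.map_pow, Polynomial.map_pow, hA, hB]; exact hab.pow)
  obtain ⟨H, hHd⟩ : ∃ H, H = A ^ 3 * derivative A + X * B ^ 3 * derivative B := ⟨_, rfl⟩
  rw [← hHd] at hH hc
  obtain ⟨Kp, hKpd⟩ : ∃ Kp, Kp = A ^ 2 * derivative (A ^ 2) + X * B ^ 2 * derivative (B ^ 2) :=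
    ⟨_, rfl⟩
  rw [← hKpd] at hN' hℓ1 hℓ2
  have hKp : Kp = C 2 * H := by
    rw [hKpd, hHd]
    simp only [derivative_pow, Nat.cast_ofNat, map_ofNat, Nat.add_one_sub_one, pow_one]
    ring
  obtain ⟨G, hGd⟩ : ∃ G, G = (A ^ 2) ^ 2 + X * (B ^ 2) ^ 2 := ⟨_, rfl⟩
  rw [← hGd] at hG hd hV hN' hℓ1 hℓ2 hco
  have hred : G.map (red K) = a ^ 4 + X * b ^ 4 := by
    rw [hGd]
    simp only [Polynomial.map_add, Polynomial.map_mul, Polynomial.map_pow, map_X, hA, hB]
    ring
  have hl : lc (G.map (emb K)) (H.map (emb K)) = (n : WittVector 2 (AC K)) := by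
    rw [lc_eq_coeff hN (hG.map _) (by rw [hG.natDegree_map, hd])
      (natDegree_map_le.trans hH), coeff_map, hc, map_natCast]
  have hKe : Kp.map (emb K) = C 2 * H.map (emb K) := by
    rw [hKp, Polynomial.map_mul, map_C, map_ofNat]
  have hl2 : lc (G.map (emb K)) (Kp.map (emb K)) = 2 * (n : WittVector 2 (AC K)) := by
    rw [hKe, lc_C_mul, hl]
  -- the second sum
  have hcop : IsCoprime (G.map (red K)) b := by
    rw [hred]
    have h1 : a ^ 4 + X * b ^ 4 = a ^ 4 + (X * b ^ 3) * b := by ring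
    rw [h1]
    exact (hab.pow_left (m := 4)).add_mul_right_left _
  obtain ⟨s, t, hst⟩ : IsCoprime (G.map (emb K)) (((B ^ 2).map (emb K)) ^ 2) := by
    apply hco
    intro x hx
    have h1 : ((((B ^ 2).map (emb K)) ^ 2).map (red (AC K))) =
        ((b.map (algebraMap K (AC K))) ^ 2) ^ 2 := by
      rw [Polynomial.map_pow, red_map_map, Polynomial.map_pow, Polynomial.map_pow, hB]
    rw [h1, eval_pow, eval_pow]
    exact pow_ne_zero _ (pow_ne_zero _ (coprime_eval hcop.symm x hx))
  have hℓ1v : ℓ1 = 4 * lc (G.map (emb K)) ((H.map (emb K)) ^ 2 * t) := by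
    rw [hℓ1 (C 4 * ((H.map (emb K)) ^ 2 * t)) ⟨C 4 * ((H.map (emb K)) ^ 2 * s), ?_⟩, lc_C_mul]
    rw [hKe]
    have h4 : (C 4 : (WittVector 2 (AC K))[X]) = C 2 ^ 2 := by
      rw [← C_pow]
      norm_num
    rw [h4]
    linear_combination (-(C 2 ^ 2 * (H.map (emb K)) ^ 2)) * hst
  -- the third sum
  have hKr : Kp.map (red K) = 0 := by
    rw [hKp, Polynomial.map_mul, map_C, map_ofNat, two_K, C_0, zero_mul]
  have hℓ2v : red (AC K) ℓ2 = 0 := by
    rw [hℓ2 0 ⟨0, by rw [hKr, Polynomial.map_zero]; ring⟩, lc, zero_modByMonic, coeff_zero]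
  obtain ⟨ℓ', hℓ'⟩ := (two_dvd_iff _).mpr hℓ2v
  rw [hred] at hV
  have hmob : ((-1) ^ N * mob (a ^ 4 + X * b ^ 4) : ℤ) = 1 ∨
      ((-1) ^ N * mob (a ^ 4 + X * b ^ 4) : ℤ) = -1 := by
    have hsf : Squarefree (a ^ 4 + X * b ^ 4) := by
      rw [F_eq]; exact squarefree_f _ _ hab.pow
    have h' : mob (a ^ 4 + X * b ^ 4) = 1 ∨ mob (a ^ 4 + X * b ^ 4) = -1 := by
      rw [mob, if_pos hsf]
      exact neg_one_pow_eq_or ℤ _
    rcases h' with h | h <;> rcases neg_one_pow_eq_or ℤ N with h' | h' <;> rw [h, h'] <;>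
      norm_num
  rw [hs.neg_one_pow, one_mul] at hVY
  obtain ⟨x, hx, hx'⟩ := sign_step V Y N' 1 (n : WittVector 2 (AC K))
    ((-1) ^ N * mob (a ^ 4 + X * b ^ 4)) 1 hmob (Or.inl rfl) hV (by rw [hYf]; push_cast; ring) hY0
    (by rw [← hVY]; ring) (map_one _) (by
      refine ⟨(n : WittVector 2 (AC K)) ^ 2 + lc (G.map (emb K)) ((H.map (emb K)) ^ 2 * t) - ℓ' + w,
        ?_⟩
      rw [hN', hl2, hℓ1v, hℓ']
      ring)
  rw [mul_one] at hx'
  obtain ⟨w', hw', hfin⟩ := last_step x 0 (n : AC K) (n : AC K)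
    ((-1) ^ N * mob (a ^ 4 + X * b ^ 4)) (by rw [hx, map_natCast]) (by ring) (by
      rw [zero_pow (Fintype.card_ne_zero)]) (by
      rw [← frob_apply, map_natCast]) hx'
  have hw'' : w' = (n : K) := by
    apply (algebraMap K (AC K)).injective
    rw [hw', map_natCast]
  rw [hw''] at hfin
  exact hfin

end core

section degrees

variable {R : Type} [CommRing R]

lemma natDegree_cube_mul (A : R[X]) (n : ℕ) (hn : 1 ≤ n) (hA : A.natDegree ≤ n) :
    (A ^ 3 * derivative A).natDegree ≤ 4 * n - 1 := by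
  have h1 : (A ^ 3).natDegree ≤ 3 * n := natDegree_pow_le_of_le 3 hA
  have h2 : (derivative A).natDegree ≤ n - 1 := (natDegree_derivative_le A).trans (by omega)
  refine natDegree_mul_le.trans ?_
  omega

lemma coeff_cube_mul (A : R[X]) (n : ℕ) (hn : 1 ≤ n) (hA : A.Monic) (hd : A.natDegree = n) :
    (A ^ 3 * derivative A).coeff (4 * n - 1) = (n : R) := by
  have h1 : (A ^ 3).natDegree ≤ 3 * n := natDegree_pow_le_of_le 3 hd.le
  have h2 : (derivative A).natDegree ≤ n - 1 := (natDegree_derivative_le A).trans (by omega)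
  rw [show 4 * n - 1 = 3 * n + (n - 1) by omega, coeff_mul_add_eq_of_natDegree_le h1 h2,
    coeff_derivative, show n - 1 + 1 = n by omega]
  have h3 : A.coeff n = 1 := by rw [← hd]; exact hA
  have h4 : (A ^ 3).coeff (3 * n) = 1 := by
    rw [coeff_pow_of_natDegree_le hd.le, h3, one_pow]
  rw [h3, h4, one_mul, one_mul]
  have h5 : ((n : ℕ) : R) = ((n - 1 + 1 : ℕ) : R) := by rw [show n - 1 + 1 = n by omega]
  rw [h5]
  push_cast
  ring

end degrees

section final

variable {K : Type} [Field K] [Fintype K] [CharP K 2]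

lemma sign_of (κ n : ℕ) (hκ : Fintype.card K = 2 ^ κ) (ε : ℤ)
    (h : (ε = 1 ∧ ∃ x : K, x ^ 2 + x = (n : K)) ∨ (ε = -1 ∧ ¬ ∃ x : K, x ^ 2 + x = (n : K))) :
    ε = (-1) ^ (κ * n) := by
  rw [exists_iff κ n hκ] at h
  rcases h with ⟨h1, h2⟩ | ⟨h1, h2⟩
  · rw [h1, h2.neg_one_pow]
  · rw [Nat.not_even_iff_odd] at h2
    rw [h1, h2.neg_one_pow]

/-- First kind: `y` monic. -/
lemma par_one (κ n : ℕ) (hκ : Fintype.card K = 2 ^ κ) (a b : K[X]) (hab : IsCoprime a b)
    (ha : a.natDegree ≤ n) (hb : b.Monic) (hbn : b.natDegree = n) :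
    mob (a ^ 4 + X * b ^ 4) = -(-1) ^ (κ * n) := by
  have hB := tl_monic hb
  have hBd : (tl b).natDegree = n := (natDegree_tl hb).trans hbn
  have hAd : (tl a).natDegree ≤ n := (natDegree_tl_le a).trans ha
  have hB4 : ((tl b ^ 2) ^ 2).Monic := (hB.pow 2).pow 2
  have hB4d : ((tl b ^ 2) ^ 2).natDegree = 4 * n := by
    rw [(hB.pow 2).natDegree_pow, hB.natDegree_pow, hBd]; ring
  have hXd : (X * (tl b ^ 2) ^ 2).natDegree = 4 * n + 1 := by
    rw [monic_X.natDegree_mul hB4, hB4d, natDegree_X]; ring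
  have hA4d : ((tl a ^ 2) ^ 2).natDegree ≤ 4 * n := by
    refine (natDegree_pow_le_of_le 2 (natDegree_pow_le_of_le 2 hAd)).trans ?_
    omega
  have hlt : ((tl a ^ 2) ^ 2).degree < (X * (tl b ^ 2) ^ 2).degree := by
    apply degree_lt_degree
    omega
  have hGm : ((tl a ^ 2) ^ 2 + X * (tl b ^ 2) ^ 2).Monic := by
    rw [add_comm]
    exact (monic_X.mul hB4).add_of_left hlt
  have hGd : ((tl a ^ 2) ^ 2 + X * (tl b ^ 2) ^ 2).natDegree = 4 * n + 1 := by
    rw [natDegree_add_eq_right_of_degree_lt hlt, hXd]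
  have hH : (tl a ^ 3 * derivative (tl a) + X * tl b ^ 3 * derivative (tl b)).natDegree ≤
      4 * n ∧ (tl a ^ 3 * derivative (tl a) + X * tl b ^ 3 * derivative (tl b)).coeff (4 * n) =
      (n : WittVector 2 K) := by
    rcases Nat.eq_zero_or_pos n with h0 | hpos
    · subst h0
      have e1 : derivative (tl a) = 0 := derivative_of_natDegree_zero (by omega)
      have e2 : derivative (tl b) = 0 := derivative_of_natDegree_zero (by omega)
      rw [e1, e2]
      simp
    · have e1 := natDegree_cube_mul (tl a) n hpos hAd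
      have e2 := natDegree_cube_mul (tl b) n hpos hBd.le
      have e3 := coeff_cube_mul (tl b) n hpos hB hBd
      have e4 : (X * tl b ^ 3 * derivative (tl b)).natDegree ≤ 4 * n := by
        rw [mul_assoc]
        refine natDegree_mul_le.trans ?_
        rw [natDegree_X]
        omega
      constructor
      · refine (natDegree_add_le _ _).trans (max_le (by omega) e4)
      · rw [coeff_add, coeff_eq_zero_of_natDegree_lt (by omega : _ < 4 * n), zero_add, mul_assoc,
          show 4 * n = (4 * n - 1) + 1 by omega, coeff_X_mul, e3]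
  have h := core (4 * n + 1) n (by omega) a b hab (tl a) (tl b) (map_tl a) (map_tl b) hGm hGd
    (by
      rw [Nat.add_sub_cancel, show (4 * n + 1) * (4 * n) = 2 * (2 * ((4 * n + 1) * n)) by ring,
        Nat.mul_div_cancel_left _ (by norm_num)]
      exact even_two_mul _)
    (by rw [Nat.add_sub_cancel]; exact hH.1) (by rw [Nat.add_sub_cancel]; exact hH.2)
  have h' := sign_of κ n hκ _ h
  have h1 : ((-1 : ℤ)) ^ (4 * n + 1) = -1 := by
    rw [pow_succ, pow_mul]
    norm_num
  rw [h1] at h'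
  linear_combination -h'

/-- Second kind: `x` monic. -/
lemma par_two (κ n : ℕ) (hκ : Fintype.card K = 2 ^ κ) (a b : K[X]) (hab : IsCoprime a b)
    (ha : a.Monic) (han : a.natDegree = n) (hb : b.natDegree + 1 ≤ n) :
    mob (a ^ 4 + X * b ^ 4) = (-1) ^ (κ * n) := by
  have hn : 1 ≤ n := by omega
  have hA := tl_monic ha
  have hAd : (tl a).natDegree = n := (natDegree_tl ha).trans han
  have hBd : (tl b).natDegree ≤ n - 1 := (natDegree_tl_le b).trans (by omega)
  have hA4 : ((tl a ^ 2) ^ 2).Monic := (hA.pow 2).pow 2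
  have hA4d : ((tl a ^ 2) ^ 2).natDegree = 4 * n := by
    rw [(hA.pow 2).natDegree_pow, hA.natDegree_pow, hAd]; ring
  have hXd : (X * (tl b ^ 2) ^ 2).natDegree ≤ 4 * n - 3 := by
    refine natDegree_mul_le.trans ?_
    have h1 := natDegree_pow_le_of_le 2 (natDegree_pow_le_of_le 2 hBd)
    rw [natDegree_X]
    omega
  have hlt : (X * (tl b ^ 2) ^ 2).degree < ((tl a ^ 2) ^ 2).degree := by
    apply degree_lt_degree
    omega
  have hGm : ((tl a ^ 2) ^ 2 + X * (tl b ^ 2) ^ 2).Monic := hA4.add_of_left hlt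
  have hGd : ((tl a ^ 2) ^ 2 + X * (tl b ^ 2) ^ 2).natDegree = 4 * n := by
    rw [natDegree_add_eq_left_of_degree_lt hlt, hA4d]
  have hH : (tl a ^ 3 * derivative (tl a) + X * tl b ^ 3 * derivative (tl b)).natDegree ≤
      4 * n - 1 ∧
      (tl a ^ 3 * derivative (tl a) + X * tl b ^ 3 * derivative (tl b)).coeff (4 * n - 1) =
      (n : WittVector 2 K) := by
    have e1 := natDegree_cube_mul (tl a) n hn hAd.le
    have e3 := coeff_cube_mul (tl a) n hn hA hAd
    have e4 : (X * tl b ^ 3 * derivative (tl b)).natDegree ≤ 4 * n - 2 := by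
      rw [mul_assoc]
      refine natDegree_mul_le.trans ?_
      rw [natDegree_X]
      have h1 : (tl b ^ 3).natDegree ≤ 3 * (n - 1) := natDegree_pow_le_of_le 3 hBd
      have h2 : (derivative (tl b)).natDegree ≤ n - 1 :=
        (natDegree_derivative_le _).trans (by omega)
      have h3 : (tl b ^ 3 * derivative (tl b)).natDegree ≤ 3 * (n - 1) + (n - 1) :=
        natDegree_mul_le.trans (by omega)
      omega
    constructor
    · refine (natDegree_add_le _ _).trans (max_le e1 (by omega))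
    · rw [coeff_add, e3, coeff_eq_zero_of_natDegree_lt (by omega), add_zero]
  have h := core (4 * n) n (by omega) a b hab (tl a) (tl b) (map_tl a) (map_tl b) hGm hGd
    (by
      rw [show 4 * n * (4 * n - 1) = 2 * (2 * (n * (4 * n - 1))) by ring,
        Nat.mul_div_cancel_left _ (by norm_num)]
      exact even_two_mul _)
    hH.1 hH.2
  have h' := sign_of κ n hκ _ h
  have h1 : ((-1 : ℤ)) ^ (4 * n) = 1 := by
    rw [pow_mul]
    norm_num
  rw [h1, one_mul] at h'
  exact h'

/-- **PAR.** -/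
theorem t_par : S_par := by
  intro K _ _ _ κ hκ n v hv
  have hsf : Squarefree (F v) := by
    rw [F, F_eq]; exact squarefree_f _ _ hv.pow
  constructor
  · intro h1 h2
    refine ⟨hsf, ?_⟩
    rw [mem_lt] at h1
    rw [mem_mon] at h2
    have h3 : v.1.natDegree ≤ n := by
      rw [natDegree_le_iff_degree_le]
      exact Order.le_of_lt_succ (by exact_mod_cast h1)
    exact par_one κ n hκ v.1 v.2 hv h3 h2.1 h2.2
  · intro h1 h2
    refine ⟨hsf, ?_⟩
    rw [mem_mon] at h1
    rw [mem_lt] at h2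
    rcases Nat.eq_zero_or_pos n with h0 | hpos
    · subst h0
      have h3 : v.1 = 1 := (Monic.natDegree_eq_zero h1.1).mp h1.2
      have h4 : v.2 = 0 := by
        rw [← degree_eq_bot]
        by_contra h
        rw [← ne_eq, degree_ne_bot] at h
        rw [degree_eq_natDegree h] at h2
        exact absurd h2 (by simp)
      rw [F, h3, h4]
      have h5 : ((1 : K[X]) ^ 4 + X * 0 ^ 4) = 1 := by ring
      rw [h5, mob_one, mul_zero, pow_zero]
    · have h3 : v.2.natDegree + 1 ≤ n := by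
        by_cases h : v.2 = 0
        · rw [h, natDegree_zero]; omega
        · rw [degree_eq_natDegree h] at h2
          exact_mod_cast h2
      exact par_two κ n hκ v.1 v.2 hv h1.1 h1.2 h3

end final

end Pool.Agent.H591.QF
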